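import Pool.Agent.Helper89.Vol5.Goals

/-! # MP_cd13d2_co, packet V58-UNI5: the maximiser is unique, and its equation -/

set_option autoImplicit false

namespace Pool.Agent.Helper1.Vol5.PkUNI5

open Set Pool.Agent.Helper89.Vol5

/-- the polynomial -/
def p (t : ℝ) : ℝ :=
  128 * t ^ 6 + 192 * t ^ 5 - 288 * t ^ 4 - 416 * t ^ 3 + 192 * t ^ 2 + 180 * t - 75

theorem hasDerivAt_p (t : ℝ) : HasDerivAt p
    (12 * (1 - 2 * t) * (15 + 62 * t + 20 * t ^ 2 - 56 * t ^ 3 - 32 * t ^ 4)) t := by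
  have h := (((((((hasDerivAt_pow 6 t).const_mul 128).add ((hasDerivAt_pow 5 t).const_mul 192)).sub
    ((hasDerivAt_pow 4 t).const_mul 288)).sub ((hasDerivAt_pow 3 t).const_mul 416)).add
    ((hasDerivAt_pow 2 t).const_mul 192)).add ((hasDerivAt_id t).const_mul 180)).sub_const 75
  have h' : HasDerivAt p _ t := h
  refine h'.congr_deriv ?_
  push_cast
  ring

theorem p_mono : StrictMonoOn p (Icc 0 (1 / 2)) := by
  refine strictMonoOn_of_deriv_pos (convex_Icc _ _)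
    (fun t _ => (hasDerivAt_p t).continuousAt.continuousWithinAt) ?_
  intro t ht
  rw [interior_Icc] at ht
  obtain ⟨h0, h1⟩ := ht
  rw [(hasDerivAt_p t).deriv]
  have h2 : 0 < 1 - 2 * t := by linarith
  have h3 : 0 < 15 + 62 * t + 20 * t ^ 2 - 56 * t ^ 3 - 32 * t ^ 4 := by
    have e3 : t ^ 3 ≤ 1 / 8 := by
      calc t ^ 3 ≤ (1 / 2) ^ 3 := pow_le_pow_left₀ h0.le h1.le 3
        _ = 1 / 8 := by norm_num
    have e4 : t ^ 4 ≤ 1 / 16 := by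
      calc t ^ 4 ≤ (1 / 2) ^ 4 := pow_le_pow_left₀ h0.le h1.le 4
        _ = 1 / 16 := by norm_num
    nlinarith [sq_nonneg t]
  positivity

theorem p_neg : p 0.455 < 0 := by
  unfold p
  norm_num

theorem p_pos : 0 < p 0.4551 := by
  unfold p
  norm_num

theorem crit {N : ℝ} (h0 : 0 < N) (h1 : N < 7 / 10)
    (hm : ∀ M ∈ Icc (0 : ℝ) (7 / 10), h5 M ≤ h5 N) :
    0 ≤ 5 - 6 * N - 8 * N ^ 2 ∧ p N = 0 := by
  have hA0 : 0 < 3 / 2 - N ^ 2 := by nlinarith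
  have hB0 : 0 < 6 - (1 + 2 * N) ^ 2 := by nlinarith
  have hd1 : HasDerivAt (fun x : ℝ => √(3 / 2 - x ^ 2)) (-(2 * N) / (2 * √(3 / 2 - N ^ 2))) N := by
    have h : HasDerivAt (fun x : ℝ => 3 / 2 - x ^ 2) (-(2 * N)) N := by
      have h1 := (hasDerivAt_pow 2 N).const_sub (3 / 2)
      simpa using h1
    exact h.sqrt hA0.ne'
  have hd2 : HasDerivAt (fun x : ℝ => √(6 - (1 + 2 * x) ^ 2))
      (-(4 * (1 + 2 * N)) / (2 * √(6 - (1 + 2 * N) ^ 2))) N := by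
    have h : HasDerivAt (fun x : ℝ => 6 - (1 + 2 * x) ^ 2) (-(4 * (1 + 2 * N))) N := by
      have h1 : HasDerivAt (fun x : ℝ => 1 + 2 * x) 2 N := by
        simpa using ((hasDerivAt_id N).const_mul 2).const_add 1
      have h2 : HasDerivAt (fun x : ℝ => (1 + 2 * x) ^ 2) (2 * (1 + 2 * N) * 2) N := by
        simpa using h1.fun_pow 2
      have h3 := h2.const_sub 6
      rw [show (-(4 * (1 + 2 * N)) : ℝ) = -(2 * (1 + 2 * N) * 2) by ring]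
      exact h3
    exact h.sqrt hB0.ne'
  have hd : HasDerivAt h5 (-(2 * N) / (2 * √(3 / 2 - N ^ 2)) + (1 * √(6 - (1 + 2 * N) ^ 2) +
      N * (-(4 * (1 + 2 * N)) / (2 * √(6 - (1 + 2 * N) ^ 2))))) N :=
    hd1.add ((hasDerivAt_id N).mul hd2)
  have hloc : IsLocalMax h5 N := by
    filter_upwards [Icc_mem_nhds h0 h1] with M hM
    exact hm M hM
  have hz := hloc.hasDerivAt_eq_zero hd
  obtain ⟨A, hA⟩ : ∃ A, A = √(3 / 2 - N ^ 2) := ⟨_, rfl⟩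
  obtain ⟨B, hB⟩ : ∃ B, B = √(6 - (1 + 2 * N) ^ 2) := ⟨_, rfl⟩
  rw [← hA, ← hB] at hz
  have hAp : 0 < A := by rw [hA]; exact Real.sqrt_pos.2 hA0
  have hBp : 0 < B := by rw [hB]; exact Real.sqrt_pos.2 hB0
  have hA2 : A ^ 2 = 3 / 2 - N ^ 2 := by rw [hA]; exact Real.sq_sqrt hA0.le
  have hB2 : B ^ 2 = 6 - (1 + 2 * N) ^ 2 := by rw [hB]; exact Real.sq_sqrt hB0.le
  have key : A * (5 - 6 * N - 8 * N ^ 2) = N * B := by
    field_simp at hz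
    nlinarith
  have hpos : 0 ≤ 5 - 6 * N - 8 * N ^ 2 := by
    by_contra h
    push Not at h
    have : A * (5 - 6 * N - 8 * N ^ 2) < 0 := mul_neg_of_pos_of_neg hAp h
    rw [key] at this
    linarith [mul_pos h0 hBp]
  refine ⟨hpos, ?_⟩
  have h3 : A ^ 2 * (5 - 6 * N - 8 * N ^ 2) ^ 2 = N ^ 2 * B ^ 2 := by
    rw [← mul_pow, key, mul_pow]
  rw [hA2, hB2] at h3
  unfold p
  linear_combination (-2) * h3

theorem f2 : 1.4 < h5 (5 / 10) := by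
  unfold h5
  have h1 : (1.1 : ℝ) ≤ √(3 / 2 - (5 / 10) ^ 2) := Real.le_sqrt_of_sq_le (by norm_num)
  have h2 : (1.4 : ℝ) ≤ √(6 - (1 + 2 * (5 / 10)) ^ 2) := Real.le_sqrt_of_sq_le (by norm_num)
  linarith

theorem f0 : h5 0 ≤ 1.3 := by
  unfold h5
  rw [zero_mul, add_zero]
  exact Real.sqrt_le_iff.2 ⟨by norm_num, by norm_num⟩

theorem fh : h5 (7 / 10) ≤ 1.36 := by
  unfold h5
  have h1 : √(3 / 2 - (7 / 10 : ℝ) ^ 2) ≤ 1.01 :=
    Real.sqrt_le_iff.2 ⟨by norm_num, by norm_num⟩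
  have h2 : √(6 - (1 + 2 * (7 / 10 : ℝ)) ^ 2) ≤ 0.5 :=
    Real.sqrt_le_iff.2 ⟨by norm_num, by norm_num⟩
  linarith

theorem loc {N : ℝ} (hN : N ∈ Icc (0 : ℝ) (7 / 10)) (hm : ∀ M ∈ Icc (0 : ℝ) (7 / 10), h5 M ≤ h5 N) :
    p N = 0 ∧ N ≤ 1 / 2 ∧ 0.455 < N ∧ N < 0.4551 := by
  have h1 : 1.4 < h5 N := f2.trans_le (hm _ ⟨by norm_num, by norm_num⟩)
  have h0 : 0 < N := by
    rcases hN.1.lt_or_eq with h | h
    · exact h
    · rw [← h] at h1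
      linarith [f0]
  have h2 : N < 7 / 10 := by
    rcases hN.2.lt_or_eq with h | h
    · exact h
    · rw [h] at h1
      linarith [fh]
  obtain ⟨h3, h4⟩ := crit h0 h2 hm
  have h5' : N ≤ 1 / 2 := by nlinarith
  have hI : N ∈ Icc (0 : ℝ) (1 / 2) := ⟨h0.le, h5'⟩
  refine ⟨h4, h5', ?_, ?_⟩
  · refine (p_mono.lt_iff_lt ⟨by norm_num, by norm_num⟩ hI).1 ?_
    rw [h4]
    exact p_neg
  · refine (p_mono.lt_iff_lt hI ⟨by norm_num, by norm_num⟩).1 ?_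
    rw [h4]
    exact p_pos

theorem thm : G_UNI5 := by
  intro t ht hm
  obtain ⟨h1, h2, h3, h4⟩ := loc ht hm
  refine ⟨fun s hs he => ?_, h1, h3, h4⟩
  obtain ⟨k1, k2, k3, k4⟩ := loc hs (fun K hK => he ▸ hm K hK)
  exact p_mono.injOn ⟨hs.1, k2⟩ ⟨ht.1, h2⟩ (k1.trans h1.symm)

end Pool.Agent.Helper1.Vol5.PkUNI5
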